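import Mathlib

set_option autoImplicit false

namespace Pool.Agent.Lib.MP_147277_co

/-- `v` is within distance one of zero. -/
def Near (v : ℤ) : Prop := -1 ≤ v ∧ v ≤ 1

/-- `f` permutes `[0,n)` and destroys approximate progressions; wrap-around is allowed when
`c = 1` (cyclic version) and not allowed when `c = 0` (interval version). -/
structure Good (c n : ℤ) (f : ℤ → ℤ) : Prop where
  range : ∀ x, 0 ≤ x → x < n → 0 ≤ f x ∧ f x < n
  inj : ∀ x y, 0 ≤ x → x < n → 0 ≤ y → y < n → f x = f y → x = y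
  good : ∀ x y z t t', 0 ≤ x → x < n → 0 ≤ y → y < n → 0 ≤ z → z < n →
    -c ≤ t → t ≤ c → -c ≤ t' → t' ≤ c →
    Near (x + z - 2 * y - t * n) → Near (f x + f z - 2 * f y - t' * n) → x = y ∧ y = z

/-- Control of the images and preimages of the points close to the two ends of `[0,n)`. -/
structure Ends (w lo hi n : ℤ) (f : ℤ → ℤ) : Prop where
  front : ∀ x, 0 ≤ x → x < n → x < w → lo ≤ f x ∧ f x ≤ hi
  back : ∀ x, 0 ≤ x → x < n → n - w ≤ x → n - hi ≤ f x ∧ f x ≤ n - lo
  ifront : ∀ x, 0 ≤ x → x < n → f x < w → n - hi ≤ x ∧ x ≤ n - lo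
  iback : ∀ x, 0 ≤ x → x < n → n - w ≤ f x → lo ≤ x ∧ x ≤ hi

theorem Ends.mono {w lo hi n : ℤ} {f : ℤ → ℤ} (h : Ends w lo hi n f) {w' lo' hi' : ℤ}
    (hw : w' ≤ w) (hlo : lo' ≤ lo) (hhi : hi ≤ hi') : Ends w' lo' hi' n f where
  front x h0 h1 h2 := by
    have := h.front x h0 h1 (by omega)
    omega
  back x h0 h1 h2 := by
    have := h.back x h0 h1 (by omega)
    omega
  ifront x h0 h1 h2 := by
    have := h.ifront x h0 h1 (by omega)
    omega
  iback x h0 h1 h2 := by
    have := h.iback x h0 h1 (by omega)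
    omega

/-- In the situation `q' = 2` the two outer image offsets are small and the inner one large. -/
theorem locate_pos {L w E A C B bj m : ℤ}
    (hw : 3 * m + 3 ≤ w) (hE : -(3 * m) ≤ E ∧ E ≤ 3 * m)
    (hbj : bj ≤ 1) (hA : 0 ≤ A) (hC : 0 ≤ C)
    (hB : B < L + bj)
    (h : 2 * L + E + (A + C - 2 * B) ≤ 1) : A < w ∧ C < w ∧ L + bj - w ≤ B := by
  omega

theorem locate_neg {L w E A C B bi bk m : ℤ}
    (hw : 3 * m + 3 ≤ w) (hE : -(3 * m) ≤ E ∧ E ≤ 3 * m)
    (hbi : bi ≤ 1) (hbk : bk ≤ 1) (hA : A < L + bi) (hC : C < L + bk)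
    (hB : 0 ≤ B)
    (h : -1 ≤ -2 * L + E + (A + C - 2 * B)) : L + bi - w ≤ A ∧ L + bk - w ≤ C ∧ B < w := by
  omega

theorem two_or {L q S : ℤ} (hL : 0 < L) (hq : 2 ≤ q ∨ q ≤ -2) (h1 : q * L + S ≤ 1)
    (h2 : -1 ≤ q * L + S) (hS1 : -(3 * L) < S - 1) (hS2 : S + 1 < 3 * L) : q = 2 ∨ q = -2 := by
  have hq2 : q ≤ 2 := by
    by_contra h
    have h3 : 3 * L ≤ q * L := mul_le_mul_of_nonneg_right (by omega) hL.le
    omega
  have hq3 : -2 ≤ q := by
    by_contra h
    have h3 : q * L ≤ -3 * L := mul_le_mul_of_nonneg_right (by omega) hL.le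
    omega
  omega

/-- If the three offsets lie in the windows, a sum with a small multiple of `L` is not small. -/
theorem far_small {L E al ga be bi bk bj m q : ℤ} (hm : 0 ≤ m) (hL : 30 * m + 30 ≤ L)
    (hE : -(3 * m) ≤ E ∧ E ≤ 3 * m) (hbi : 0 ≤ bi ∧ bi ≤ 1) (hbk : 0 ≤ bk ∧ bk ≤ 1)
    (hbj : 0 ≤ bj ∧ bj ≤ 1)
    (ha : 6 * (L + bi) ≤ 10 * al ∧ 10 * al ≤ 7 * (L + bi))
    (hg : 6 * (L + bk) ≤ 10 * ga ∧ 10 * ga ≤ 7 * (L + bk))
    (hb : 3 * (L + bj) ≤ 10 * be ∧ 10 * be ≤ 4 * (L + bj)) :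
    ¬ Near (q * L + E + (al + ga - 2 * be)) := by
  rintro ⟨h1, h2⟩
  rcases le_or_gt q (-1) with h | h
  · have h3 : q * L ≤ -1 * L := mul_le_mul_of_nonneg_right h (by omega)
    omega
  · have h3 : 0 * L ≤ q * L := mul_le_mul_of_nonneg_right (by omega) (by omega)
    omega

theorem far_small' {L E al ga be bi bk bj m q : ℤ} (hm : 0 ≤ m) (hL : 30 * m + 30 ≤ L)
    (hE : -(3 * m) ≤ E ∧ E ≤ 3 * m) (hbi : 0 ≤ bi ∧ bi ≤ 1) (hbk : 0 ≤ bk ∧ bk ≤ 1)
    (hbj : 0 ≤ bj ∧ bj ≤ 1)
    (ha : 3 * (L + bi) ≤ 10 * al ∧ 10 * al ≤ 4 * (L + bi))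
    (hg : 3 * (L + bk) ≤ 10 * ga ∧ 10 * ga ≤ 4 * (L + bk))
    (hb : 6 * (L + bj) ≤ 10 * be ∧ 10 * be ≤ 7 * (L + bj)) :
    ¬ Near (q * L + E + (al + ga - 2 * be)) := by
  rintro ⟨h1, h2⟩
  rcases le_or_gt 1 q with h | h
  · have h3 : 1 * L ≤ q * L := mul_le_mul_of_nonneg_right h (by omega)
    omega
  · have h3 : q * L ≤ 0 * L := mul_le_mul_of_nonneg_right (by omega) (by omega)
    omega

/-- The window conditions used by the blow-up. -/
structure Win (w n : ℤ) (f : ℤ → ℤ) : Prop where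
  front : ∀ x, 0 ≤ x → x < n → x < w → 3 * n ≤ 10 * f x ∧ 10 * f x ≤ 4 * n
  back : ∀ x, 0 ≤ x → x < n → n - w ≤ x → 6 * n ≤ 10 * f x ∧ 10 * f x ≤ 7 * n
  ifront : ∀ x, 0 ≤ x → x < n → f x < w → 6 * n ≤ 10 * x ∧ 10 * x ≤ 7 * n
  iback : ∀ x, 0 ≤ x → x < n → n - w ≤ f x → 3 * n ≤ 10 * x ∧ 10 * x ≤ 4 * n

theorem Ends.win {w lo hi n : ℤ} {f : ℤ → ℤ} (h : Ends w lo hi n f) (h1 : 3 * n ≤ 10 * lo)
    (h2 : 10 * hi ≤ 4 * n) : Win w n f where
  front x h0 h1 h2 := by
    have := h.front x h0 h1 h2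
    omega
  back x h0 h1 h2 := by
    have := h.back x h0 h1 h2
    omega
  ifront x h0 h1 h2 := by
    have := h.ifront x h0 h1 h2
    omega
  iback x h0 h1 h2 := by
    have := h.iback x h0 h1 h2
    omega

theorem core {L w m : ℤ} (hm : 0 ≤ m) (hw : 3 * m + 3 ≤ w) (hL : 10 * w ≤ L)
    {E E' q q' al ga be bi bk bj : ℤ} {fi fk fj : ℤ → ℤ}
    (hE : -(3 * m) ≤ E ∧ E ≤ 3 * m) (hE' : -(3 * m) ≤ E' ∧ E' ≤ 3 * m)
    (hbi : 0 ≤ bi ∧ bi ≤ 1) (hbk : 0 ≤ bk ∧ bk ≤ 1) (hbj : 0 ≤ bj ∧ bj ≤ 1)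
    (wi : Win w (L + bi) fi) (wk : Win w (L + bk) fk) (wj : Win w (L + bj) fj)
    (hal : 0 ≤ al ∧ al < L + bi) (hga : 0 ≤ ga ∧ ga < L + bk) (hbe : 0 ≤ be ∧ be < L + bj)
    (hA : 0 ≤ fi al ∧ fi al < L + bi) (hC : 0 ≤ fk ga ∧ fk ga < L + bk)
    (hB : 0 ≤ fj be ∧ fj be < L + bj)
    (h1 : Near (q * L + E + (al + ga - 2 * be)))
    (h2 : Near (q' * L + E' + (fi al + fk ga - 2 * fj be))) : Near q ∧ Near q' := by
  constructor
  · by_contra hq
    have hq2 : 2 ≤ q ∨ q ≤ -2 := by
      unfold Near at hq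
      omega
    rcases two_or (L := L) (by omega) hq2 (S := E + (al + ga - 2 * be)) (by have := h1.2; omega)
      (by have := h1.1; omega) (by omega) (by omega) with rfl | rfl
    · obtain ⟨a1, a2, a3⟩ := locate_pos hw hE hbj.2 hal.1 hga.1 hbe.2 h1.2
      exact far_small' hm (by omega) hE' hbi hbk hbj (wi.front _ hal.1 hal.2 a1)
        (wk.front _ hga.1 hga.2 a2) (wj.back _ hbe.1 hbe.2 a3) h2
    · obtain ⟨a1, a2, a3⟩ := locate_neg hw hE hbi.2 hbk.2 hal.2 hga.2 hbe.1 h1.1
      exact far_small hm (by omega) hE' hbi hbk hbj (wi.back _ hal.1 hal.2 a1)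
        (wk.back _ hga.1 hga.2 a2) (wj.front _ hbe.1 hbe.2 a3) h2
  · by_contra hq
    have hq2 : 2 ≤ q' ∨ q' ≤ -2 := by
      unfold Near at hq
      omega
    rcases two_or (L := L) (by omega) hq2 (S := E' + (fi al + fk ga - 2 * fj be))
      (by have := h2.2; omega)
      (by have := h2.1; omega) (by omega) (by omega) with rfl | rfl
    · obtain ⟨a1, a2, a3⟩ := locate_pos hw hE' hbj.2 hA.1 hC.1 hB.2 h2.2
      exact far_small hm (by omega) hE hbi hbk hbj (wi.ifront _ hal.1 hal.2 a1)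
        (wk.ifront _ hga.1 hga.2 a2) (wj.iback _ hbe.1 hbe.2 a3) h1
    · obtain ⟨a1, a2, a3⟩ := locate_neg hw hE' hbi.2 hbk.2 hA.2 hC.2 hB.1 h2.1
      exact far_small' hm (by omega) hE hbi hbk hbj (wi.iback _ hal.1 hal.2 a1)
        (wk.iback _ hga.1 hga.2 a2) (wj.ifront _ hbe.1 hbe.2 a3) h1

/-! ### The construction -/

/-- Size increment of the `i`-th block. -/
def bump (r i : ℤ) : ℤ := if i < r then 1 else 0

/-- First point of the `i`-th block of the domain. -/
def dom (L r i : ℤ) : ℤ := i * L + min i r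

/-- Number of large blocks whose template value is below `j`. -/
noncomputable def cnt (τ : ℤ → ℤ) (r j : ℤ) : ℤ := (((Finset.Ico 0 r).filter (fun i => τ i < j)).card : ℤ)

/-- First point of the `j`-th block of the range. -/
noncomputable def cod (L : ℤ) (τ : ℤ → ℤ) (r j : ℤ) : ℤ := j * L + cnt τ r j

/-- Index of the block containing `x`. -/
def idx (L r x : ℤ) : ℤ :=
  if x < r * (L + 1) then x / (L + 1) else r + (x - r * (L + 1)) / L

/-- The inner permutation of the `i`-th block. -/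
def inner (r : ℤ) (g0 g1 : ℤ → ℤ) (i : ℤ) : ℤ → ℤ := if i < r then g1 else g0

/-- The blow-up of the template `τ`. -/
noncomputable def blow (L r : ℤ) (τ g0 g1 : ℤ → ℤ) (x : ℤ) : ℤ :=
  cod L τ r (τ (idx L r x)) + inner r g0 g1 (idx L r x) (x - dom L r (idx L r x))

theorem bump_nonneg (r i : ℤ) : 0 ≤ bump r i ∧ bump r i ≤ 1 := by
  unfold bump; split_ifs <;> omega

theorem cnt_nonneg (τ : ℤ → ℤ) (r j : ℤ) : 0 ≤ cnt τ r j := by unfold cnt; omega

theorem cnt_le {τ : ℤ → ℤ} {r : ℤ} (hr : 0 ≤ r) (j : ℤ) : cnt τ r j ≤ r := by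
  unfold cnt
  have h := Finset.card_filter_le (Finset.Ico (0 : ℤ) r) (fun i => τ i < j)
  rw [Int.card_Ico] at h
  omega

theorem cnt_add_bump_le {τ : ℤ → ℤ} {r : ℤ} {i j : ℤ} (hi : 0 ≤ i) (hj : τ i < j) :
    cnt τ r (τ i) + bump r i ≤ cnt τ r j := by
  unfold cnt bump
  split_ifs with h
  · have hsub : insert i ((Finset.Ico 0 r).filter (fun k => τ k < τ i)) ⊆
        (Finset.Ico 0 r).filter (fun k => τ k < j) := by
      intro k hk
      rw [Finset.mem_insert] at hk
      rcases hk with rfl | hk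
      · simp [hi, h, hj]
      · simp only [Finset.mem_filter, Finset.mem_Ico] at hk ⊢
        exact ⟨hk.1, by omega⟩
    have hc := Finset.card_le_card hsub
    rw [Finset.card_insert_of_notMem (by simp)] at hc
    omega
  · have hsub : ((Finset.Ico 0 r).filter (fun k => τ k < τ i)) ⊆
        (Finset.Ico 0 r).filter (fun k => τ k < j) := by
      intro k hk
      simp only [Finset.mem_filter, Finset.mem_Ico] at hk ⊢
      exact ⟨hk.1, by omega⟩
    have hc := Finset.card_le_card hsub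
    omega

theorem cnt_zero {c m : ℤ} {τ : ℤ → ℤ} (h : Good c m τ) {r : ℤ} (hr : r ≤ m) :
    cnt τ r 0 = 0 := by
  unfold cnt
  rw [Finset.filter_eq_empty_iff.2]
  · simp
  · intro i hi
    rw [Finset.mem_Ico] at hi
    have := (h.range i hi.1 (by omega)).1
    omega

/-- Position of a point inside its block. -/
theorem idx_spec {L m r x : ℤ} (hL : 0 < L) (hr0 : 0 ≤ r) (hr : r ≤ m) (hx0 : 0 ≤ x)
    (hx : x < m * L + r) :
    0 ≤ idx L r x ∧ idx L r x < m ∧ dom L r (idx L r x) ≤ x ∧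
      x < dom L r (idx L r x) + (L + bump r (idx L r x)) := by
  unfold idx dom bump
  by_cases h : x < r * (L + 1)
  · rw [if_pos h]
    have h1 : x / (L + 1) < r := Int.ediv_lt_of_lt_mul (by omega) h
    have h0 : 0 ≤ x / (L + 1) := Int.ediv_nonneg hx0 (by omega)
    have h2 := Int.mul_ediv_add_emod x (L + 1)
    have h3 := Int.emod_nonneg x (show L + 1 ≠ 0 by omega)
    have h4 := Int.emod_lt_of_pos x (show 0 < L + 1 by omega)
    rw [if_pos h1, min_eq_left h1.le]
    have h5 : (L + 1) * (x / (L + 1)) = x / (L + 1) * L + x / (L + 1) := by ring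
    refine ⟨h0, by omega, by omega, by omega⟩
  · rw [if_neg h]
    have h1 : 0 ≤ (x - r * (L + 1)) / L := Int.ediv_nonneg (by omega) hL.le
    have h2 := Int.mul_ediv_add_emod (x - r * (L + 1)) L
    have h3 := Int.emod_nonneg (x - r * (L + 1)) (show L ≠ 0 by omega)
    have h4 := Int.emod_lt_of_pos (x - r * (L + 1)) hL
    have h5 : (x - r * (L + 1)) / L < m - r := by
      apply Int.ediv_lt_of_lt_mul hL
      have : (m - r) * L = m * L - r * L := by ring
      have : r * (L + 1) = r * L + r := by ring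
      omega
    have h6 : (r + (x - r * (L + 1)) / L) * L = r * L + L * ((x - r * (L + 1)) / L) := by ring
    have h7 : r * (L + 1) = r * L + r := by ring
    rw [min_eq_right (by omega), if_neg (by omega)]
    refine ⟨by omega, by omega, by omega, by omega⟩

/-- Data needed for one blow-up step. -/
structure Setup (c m r L w : ℤ) (τ g0 g1 : ℤ → ℤ) : Prop where
  c0 : 0 ≤ c
  c1 : c ≤ 1
  hm : 3 ≤ m
  hr0 : 0 ≤ r
  hr : r ≤ m
  hw : 3 * m + 3 ≤ w
  hL : 10 * w ≤ L
  tmpl : Good c m τ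
  good0 : Good 0 L g0
  good1 : Good 0 (L + 1) g1
  win0 : Win w L g0
  win1 : Win w (L + 1) g1

variable {c m r L w : ℤ} {τ g0 g1 : ℤ → ℤ}

theorem Setup.inner_good (h : Setup c m r L w τ g0 g1) (i : ℤ) :
    Good 0 (L + bump r i) (inner r g0 g1 i) := by
  unfold bump inner
  split_ifs
  · exact h.good1
  · simpa using h.good0

theorem Setup.inner_win (h : Setup c m r L w τ g0 g1) (i : ℤ) :
    Win w (L + bump r i) (inner r g0 g1 i) := by
  unfold bump inner
  split_ifs
  · exact h.win1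
  · simpa using h.win0

/-- Description of a point and its image. -/
theorem Setup.point (h : Setup c m r L w τ g0 g1) {x : ℤ} (hx0 : 0 ≤ x) (hx : x < m * L + r) :
    ∃ i al, 0 ≤ i ∧ i < m ∧ 0 ≤ al ∧ al < L + bump r i ∧ x = i * L + min i r + al ∧
      0 ≤ inner r g0 g1 i al ∧ inner r g0 g1 i al < L + bump r i ∧ 0 ≤ τ i ∧ τ i < m ∧
      blow L r τ g0 g1 x = τ i * L + cnt τ r (τ i) + inner r g0 g1 i al := by
  have hw := h.hw
  have hm := h.hm
  have hL := h.hL
  obtain ⟨h1, h2, h3, h4⟩ := idx_spec (m := m) (show 0 < L by omega) h.hr0 h.hr hx0 hx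
  have h5 := (h.inner_good (idx L r x)).range (x - dom L r (idx L r x)) (by omega) (by omega)
  have h6 := h.tmpl.range _ h1 h2
  refine ⟨idx L r x, x - dom L r (idx L r x), h1, h2, by omega, by omega, ?_, h5.1, h5.2,
    h6.1, h6.2, ?_⟩
  · unfold dom; ring
  · unfold blow cod; ring

theorem Setup.cod_lt (h : Setup c m r L w τ g0 g1) {i j : ℤ} (hi : 0 ≤ i)
    (hij : τ i < τ j) :
    τ i * L + cnt τ r (τ i) + (L + bump r i) ≤ τ j * L + cnt τ r (τ j) := by
  have h1 := cnt_add_bump_le (r := r) hi hij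
  have hw := h.hw
  have hm := h.hm
  have hL := h.hL
  have h2 : (τ i + 1) * L ≤ τ j * L := mul_le_mul_of_nonneg_right (by omega) (by omega)
  have h3 : (τ i + 1) * L = τ i * L + L := by ring
  omega

theorem Setup.blow_range (h : Setup c m r L w τ g0 g1) {x : ℤ} (hx0 : 0 ≤ x)
    (hx : x < m * L + r) : 0 ≤ blow L r τ g0 g1 x ∧ blow L r τ g0 g1 x < m * L + r := by
  obtain ⟨i, al, hi0, hi, ha0, ha, hxe, hA0, hA, ht0, ht, he⟩ := h.point hx0 hx
  have hw := h.hw
  have hm := h.hm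
  have hL := h.hL
  have h1 := cnt_nonneg τ r (τ i)
  have h2 := cnt_add_bump_le (r := r) hi0 (show τ i < m by omega)
  have h3 := cnt_le (τ := τ) h.hr0 m
  have h4 : 0 * L ≤ τ i * L := mul_le_mul_of_nonneg_right ht0 (by omega)
  have h5 : (τ i + 1) * L ≤ m * L := mul_le_mul_of_nonneg_right (by omega) (by omega)
  have h6 : (τ i + 1) * L = τ i * L + L := by ring
  rw [he]
  constructor <;> omega

theorem Setup.blow_inj (h : Setup c m r L w τ g0 g1) {x y : ℤ} (hx0 : 0 ≤ x)
    (hx : x < m * L + r) (hy0 : 0 ≤ y) (hy : y < m * L + r)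
    (hxy : blow L r τ g0 g1 x = blow L r τ g0 g1 y) : x = y := by
  obtain ⟨i, al, hi0, hi, ha0, ha, hxe, hA0, hA, ht0, ht, he⟩ := h.point hx0 hx
  obtain ⟨j, be, hj0, hj, hb0, hb, hye, hB0, hB, hs0, hs, hf⟩ := h.point hy0 hy
  have hij : τ i = τ j := by
    rcases lt_trichotomy (τ i) (τ j) with h1 | h1 | h1
    · have := h.cod_lt hi0 h1
      omega
    · exact h1
    · have := h.cod_lt hj0 h1
      omega
  have hij' := h.tmpl.inj i j hi0 hi hj0 hj hij
  subst hij'
  have hab : inner r g0 g1 i al = inner r g0 g1 i be := by omega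
  have := (h.inner_good i).inj al be ha0 ha hb0 hb hab
  omega

theorem Setup.blow_good (h : Setup c m r L w τ g0 g1) :
    Good c (m * L + r) (blow L r τ g0 g1) where
  range x hx0 hx := h.blow_range hx0 hx
  inj x y hx0 hx hy0 hy hxy := h.blow_inj hx0 hx hy0 hy hxy
  good x y z t t' hx0 hx hy0 hy hz0 hz ht1 ht2 ht1' ht2' hn hn' := by
    obtain ⟨i, al, hi0, hi, ha0, ha, hxe, hA0, hA, hp0, hp, hex⟩ := h.point hx0 hx
    obtain ⟨j, be, hj0, hj, hb0, hb, hye, hB0, hB, hq0, hq, hey⟩ := h.point hy0 hy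
    obtain ⟨k, ga, hk0, hk, hg0, hg, hze, hC0, hC, hs0, hs, hez⟩ := h.point hz0 hz
    have c0 := h.c0
    have c1 := h.c1
    have hw := h.hw
    have hm := h.hm
    have hL := h.hL
    have hr := h.hr
    have hr0 := h.hr0
    have tr1 : -m ≤ t * r ∧ t * r ≤ m := by
      have : t = -1 ∨ t = 0 ∨ t = 1 := by omega
      rcases this with rfl | rfl | rfl <;> omega
    have tr2 : -m ≤ t' * r ∧ t' * r ≤ m := by
      have : t' = -1 ∨ t' = 0 ∨ t' = 1 := by omega
      rcases this with rfl | rfl | rfl <;> omega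
    have e1 : x + z - 2 * y - t * (m * L + r) = (i + k - 2 * j - t * m) * L +
        (min i r + min k r - 2 * min j r - t * r) + (al + ga - 2 * be) := by
      rw [hxe, hye, hze]; ring
    have e2 : blow L r τ g0 g1 x + blow L r τ g0 g1 z - 2 * blow L r τ g0 g1 y -
        t' * (m * L + r) = (τ i + τ k - 2 * τ j - t' * m) * L +
        (cnt τ r (τ i) + cnt τ r (τ k) - 2 * cnt τ r (τ j) - t' * r) +
        (inner r g0 g1 i al + inner r g0 g1 k ga - 2 * inner r g0 g1 j be) := by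
      rw [hex, hey, hez]; ring
    have ci := cnt_le (τ := τ) hr0 (τ i)
    have cj := cnt_le (τ := τ) hr0 (τ j)
    have ck := cnt_le (τ := τ) hr0 (τ k)
    have ci0 := cnt_nonneg τ r (τ i)
    have cj0 := cnt_nonneg τ r (τ j)
    have ck0 := cnt_nonneg τ r (τ k)
    rw [e1] at hn
    rw [e2] at hn'
    have key := core (m := m) (by omega) hw hL (by constructor <;> omega)
      (by constructor <;> omega) (bump_nonneg r i) (bump_nonneg r k) (bump_nonneg r j)
      (h.inner_win i) (h.inner_win k) (h.inner_win j) ⟨ha0, ha⟩ ⟨hg0, hg⟩ ⟨hb0, hb⟩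
      ⟨hA0, hA⟩ ⟨hC0, hC⟩ ⟨hB0, hB⟩ hn hn'
    obtain ⟨hij, hjk⟩ := h.tmpl.good i j k t t' hi0 hi hj0 hj hk0 hk ht1 ht2 ht1' ht2' key.1 key.2
    subst hij
    subst hjk
    have ht : t = 0 := by
      have : t = -1 ∨ t = 0 ∨ t = 1 := by omega
      have h1 := key.1
      unfold Near at h1
      rcases this with rfl | rfl | rfl <;> omega
    have ht' : t' = 0 := by
      have : t' = -1 ∨ t' = 0 ∨ t' = 1 := by omega
      have h1 := key.2
      unfold Near at h1
      rcases this with rfl | rfl | rfl <;> omega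
    subst ht
    subst ht'
    have hfin := (h.inner_good i).good al be ga 0 0 ha0 ha hb0 hb hg0 hg (by omega) (by omega)
      (by omega) (by omega)
      (by
        have : (i + i - 2 * i - 0 * m) * L + (min i r + min i r - 2 * min i r - 0 * r) +
          (al + ga - 2 * be) = al + ga - 2 * be - 0 * (L + bump r i) := by ring
        rwa [this] at hn)
      (by
        have : (τ i + τ i - 2 * τ i - 0 * m) * L +
          (cnt τ r (τ i) + cnt τ r (τ i) - 2 * cnt τ r (τ i) - 0 * r) +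
          (inner r g0 g1 i al + inner r g0 g1 i ga - 2 * inner r g0 g1 i be) =
          inner r g0 g1 i al + inner r g0 g1 i ga - 2 * inner r g0 g1 i be -
            0 * (L + bump r i) := by ring
        rwa [this] at hn')
    omega

/-- The corner conditions on a template. -/
structure Corner (m u : ℤ) (τ : ℤ → ℤ) : Prop where
  u0 : 0 ≤ u
  um : u < m
  first : τ 0 = u
  last : τ (m - 1) = m - 1 - u
  ifirst : τ (m - 1 - u) = 0
  ilast : τ u = m - 1

/-- Propagation of the end windows through a blow-up. -/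
theorem Setup.blow_ends (h : Setup c m r L w τ g0 g1) {u v lo hi : ℤ} (hu : Corner m u τ)
    (hv : v ≤ L) (e0 : Ends v lo hi L g0) (e1 : Ends v lo hi (L + 1) g1) :
    Ends v (u * L + lo) (u * L + m + hi) (m * L + r) (blow L r τ g0 g1) := by
  have hw := h.hw
  have hm := h.hm
  have hL := h.hL
  have hr := h.hr
  have hr0 := h.hr0
  have u0 := hu.u0
  have um := hu.um
  have einner : ∀ i, Ends v lo hi (L + bump r i) (inner r g0 g1 i) := by
    intro i
    unfold bump inner
    split_ifs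
    · exact e1
    · simpa using e0
  have eb : ∀ i, bump r i = if i < r then 1 else 0 := fun i => rfl
  have s1 : (m - 1 - u) * L = m * L - L - u * L := by ring
  have s2 : (m - 1) * L = m * L - L := by ring
  -- blocks other than the first start late
  have late : ∀ i, 1 ≤ i → L ≤ i * L := fun i hi => by
    have : 1 * L ≤ i * L := mul_le_mul_of_nonneg_right hi (by omega)
    omega
  have early : ∀ i, i ≤ m - 2 → i * L + L ≤ m * L - L := fun i hi => by
    have : (i + 1) * L ≤ (m - 1) * L := mul_le_mul_of_nonneg_right (by omega) (by omega)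
    have h1 : (i + 1) * L = i * L + L := by ring
    omega
  have ninj : ∀ i, 0 ≤ i → i < m → τ i = m - 1 → i = u := fun i hi0 hi hh =>
    h.tmpl.inj i u hi0 hi u0 um (by rw [hh, hu.ilast])
  have ninj0 : ∀ i, 0 ≤ i → i < m → τ i = 0 → i = m - 1 - u := fun i hi0 hi hh =>
    h.tmpl.inj i (m - 1 - u) hi0 hi (by omega) (by omega) (by rw [hh, hu.ifirst])
  constructor
  · intro x hx0 hx hxv
    obtain ⟨i, al, hi0, hi, ha0, ha, hxe, hA0, hA, hp0, hp, hex⟩ := h.point hx0 hx
    have hi' : i = 0 := by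
      by_contra hne
      have h1 := late i (by omega)
      have h2 : 0 ≤ min i r := le_min hi0 hr0
      omega
    subst hi'
    have h3 := (einner 0).front al ha0 ha (by
      have h2 : 0 ≤ min 0 r := le_min le_rfl hr0
      omega)
    have h4 := cnt_nonneg τ r (τ 0)
    have h5 := cnt_le (τ := τ) hr0 (τ 0)
    rw [hu.first] at h4 h5 hex
    rw [hex]
    constructor <;> omega
  · intro x hx0 hx hxv
    obtain ⟨i, al, hi0, hi, ha0, ha, hxe, hA0, hA, hp0, hp, hex⟩ := h.point hx0 hx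
    have hi' : i = m - 1 := by
      by_contra hne
      have h1 := early i (by omega)
      have h2 := eb i
      have h3 : min i r ≤ r := min_le_right _ _
      by_cases hir : i < r
      · rw [if_pos hir] at h2
        have h4 : min i r = i := min_eq_left hir.le
        omega
      · rw [if_neg hir] at h2
        omega
    subst hi'
    have hmin : min (m - 1) r + bump r (m - 1) = r := by
      have h2 := eb (m - 1)
      split_ifs at h2 with hc
      · rw [min_eq_left hc.le]; omega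
      · rw [min_eq_right (by omega)]; omega
    have h3 := (einner (m - 1)).back al ha0 ha (by omega)
    have h4 := cnt_nonneg τ r (τ (m - 1))
    have h6 := cnt_add_bump_le (r := r) hi0 (show τ (m - 1) < m by omega)
    have h7 := cnt_le (τ := τ) hr0 m
    rw [hu.last] at h4 h6 hex
    have h8 := bump_nonneg r (m - 1)
    rw [hex]
    constructor <;> omega
  · intro x hx0 hx hxv
    obtain ⟨i, al, hi0, hi, ha0, ha, hxe, hA0, hA, hp0, hp, hex⟩ := h.point hx0 hx
    have h1 := cnt_nonneg τ r (τ i)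
    have hi' : τ i = 0 := by
      by_contra hne
      have h2 := late (τ i) (by omega)
      omega
    have hi2 := ninj0 i hi0 hi hi'
    rw [hi', cnt_zero h.tmpl hr] at hex
    subst hi2
    have h3 := (einner (m - 1 - u)).ifront al ha0 ha (by omega)
    have h8 := bump_nonneg r (m - 1 - u)
    have h9 := eb (m - 1 - u)
    have h10 : 0 ≤ min (m - 1 - u) r := le_min (by omega) hr0
    split_ifs at h9 with hc
    · rw [min_eq_left hc.le] at hxe h10
      constructor <;> omega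
    · rw [min_eq_right (by omega)] at hxe h10
      constructor <;> omega
  · intro x hx0 hx hxv
    obtain ⟨i, al, hi0, hi, ha0, ha, hxe, hA0, hA, hp0, hp, hex⟩ := h.point hx0 hx
    have hi' : τ i = m - 1 := by
      by_contra hne
      have h2 := h.cod_lt (i := i) (j := u) hi0 (by rw [hu.ilast]; omega)
      rw [hu.ilast] at h2
      have h3 := cnt_le (τ := τ) hr0 (m - 1)
      omega
    have hi2 := ninj i hi0 hi hi'
    subst hi2
    have h6 := cnt_add_bump_le (r := r) hi0 (show τ i < m by omega)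
    have h7 := cnt_le (τ := τ) hr0 m
    rw [hi'] at hex h6
    have h3 := (einner i).iback al ha0 ha (by omega)
    have h10 : 0 ≤ min i r := le_min (by omega) hr0
    have h11 : min i r ≤ r := min_le_right _ _
    constructor <;> omega

end Pool.Agent.Lib.MP_147277_co
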