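import Pool.Agent.Lib.MP_147277_co.Exact

set_option autoImplicit false

namespace Pool.Agent.Lib.MP_147277_co

/-- Bounded universal quantifier with values in the Booleans. -/
noncomputable def allB (n : ℕ) (p : ℕ → Bool) : Bool :=
  Nat.rec (motive := fun _ => Bool) true (fun k ih => p k && ih) n

theorem allB_spec {n : ℕ} {p : ℕ → Bool} (h : allB n p = true) : ∀ k, k < n → p k = true := by
  induction n with
  | zero => intro k hk; omega
  | succ n ih =>
    have h' : (p n && allB n p) = true := h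
    rw [Bool.and_eq_true] at h'
    intro k hk
    rcases Nat.lt_succ_iff_lt_or_eq.1 hk with h1 | rfl
    · exact ih h'.2 k h1
    · exact h'.1

/-- The two numbers differ by at least two. -/
def far (P Q : ℕ) : Bool := Nat.ble (P + 2) Q || Nat.ble (Q + 2) P

theorem far_spec {P Q : ℕ} (h : far P Q = true) : ¬ Near ((P : ℤ) - Q) := by
  unfold far at h
  rw [Bool.or_eq_true, Nat.ble_eq, Nat.ble_eq] at h
  unfold Near
  omega

/-- Digit number `i` of `T` in base `2 ^ b`. -/
def look (b T i : ℕ) : ℕ := T / 2 ^ (b * i) % 2 ^ b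

/-- Checks that a function maps `[0,n)` injectively to itself. -/
noncomputable def chkPerm (n : ℕ) (τ : ℕ → ℕ) : Bool :=
  allB n fun x => Nat.blt (τ x) n && allB x fun y => !(Nat.beq (τ x) (τ y))

theorem chkPerm_spec {n : ℕ} {τ : ℕ → ℕ} (h : chkPerm n τ = true) :
    (∀ x, x < n → τ x < n) ∧ ∀ x y, x < n → y < n → τ x = τ y → x = y := by
  have h1 := allB_spec h
  refine ⟨fun x hx => ?_, ?_⟩
  · have := h1 x hx
    rw [Bool.and_eq_true] at this
    exact Nat.blt_eq.mp this.1
  · have key : ∀ x y, x < n → y < x → τ x ≠ τ y := by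
      intro x y hx hy
      have := h1 x hx
      rw [Bool.and_eq_true] at this
      have h2 := allB_spec this.2 y hy
      rw [Bool.not_eq_true'] at h2
      exact Nat.ne_of_beq_eq_false h2
    intro x y hx hy hxy
    rcases lt_trichotomy x y with h2 | h2 | h2
    · exact (key y x hy h2 hxy.symm).elim
    · exact h2
    · exact (key x y hx h2 hxy).elim

/-- Checks the interval version of the condition. -/
noncomputable def chkI (n : ℕ) (τ : ℕ → ℕ) : Bool :=
  allB n fun x => allB n fun y => allB 3 fun e =>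
    !(Nat.ble (x + 1) (2 * y + e)) || !(Nat.blt (2 * y + e - (x + 1)) n) ||
      (Nat.beq x y && Nat.beq y (2 * y + e - (x + 1))) ||
      far (τ x + τ (2 * y + e - (x + 1))) (2 * τ y)

/-- The integer function with the given values. -/
def ext (τ : ℕ → ℕ) (x : ℤ) : ℤ := (τ x.toNat : ℤ)

theorem good_of_chkI {n : ℕ} {τ : ℕ → ℕ} (h1 : chkPerm n τ = true) (h2 : chkI n τ = true) :
    Good 0 n (ext τ) where
  range x hx0 hx := by
    obtain ⟨x, rfl⟩ := Int.eq_ofNat_of_zero_le hx0
    have := (chkPerm_spec h1).1 x (by omega)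
    unfold ext
    simp only [Int.toNat_natCast]
    omega
  inj x y hx0 hx hy0 hy hxy := by
    obtain ⟨x, rfl⟩ := Int.eq_ofNat_of_zero_le hx0
    obtain ⟨y, rfl⟩ := Int.eq_ofNat_of_zero_le hy0
    unfold ext at hxy
    simp only [Int.toNat_natCast] at hxy
    have := (chkPerm_spec h1).2 x y (by omega) (by omega) (by omega)
    rw [this]
  good x y z t t' hx0 hx hy0 hy hz0 hz ht1 ht2 ht1' ht2' hn hn' := by
    obtain ⟨x, rfl⟩ := Int.eq_ofNat_of_zero_le hx0
    obtain ⟨y, rfl⟩ := Int.eq_ofNat_of_zero_le hy0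
    obtain ⟨z, rfl⟩ := Int.eq_ofNat_of_zero_le hz0
    have ht : t = 0 := by omega
    have ht' : t' = 0 := by omega
    subst ht
    subst ht'
    unfold ext at hn'
    simp only [Int.toNat_natCast] at hn'
    unfold Near at hn
    obtain ⟨e, he3, he⟩ : ∃ e : ℕ, e < 3 ∧ (z : ℤ) = 2 * y + e - (x + 1) :=
      ⟨((x : ℤ) + z - 2 * y + 1).toNat, by omega, by omega⟩
    have hz' : z = 2 * y + e - (x + 1) := by omega
    have h3 := allB_spec (allB_spec (allB_spec h2 x (by omega)) y (by omega)) e he3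
    rw [← hz', Bool.or_eq_true, Bool.or_eq_true, Bool.or_eq_true] at h3
    rcases h3 with ((h3 | h3) | h3) | h3
    · rw [Bool.not_eq_true', ← Bool.not_eq_true, Nat.ble_eq] at h3
      omega
    · rw [Bool.not_eq_true', ← Bool.not_eq_true, Nat.blt_eq] at h3
      omega
    · rw [Bool.and_eq_true, Nat.beq_eq, Nat.beq_eq] at h3
      omega
    · exfalso
      apply far_spec h3
      push_cast
      simpa using hn'

/-- Checks the inner permutations of one exceptional block triple. -/
noncomputable def chkInner (L : ℕ) (S : ℕ → ℕ → ℕ) (i j k e P Q : ℕ) : Bool :=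
  allB L fun al => allB L fun be => allB 3 fun f =>
    !(Nat.ble (al + 1 + e * L) (2 * be + f + L)) ||
    !(Nat.blt (2 * be + f + L - (al + 1 + e * L)) L) ||
    far (P * L + S i al + S k (2 * be + f + L - (al + 1 + e * L))) (Q * L + 2 * S j be)

/-- Checks a cyclic template together with its exceptional block triples. -/
noncomputable def chkT (m L : ℕ) (τ : ℕ → ℕ) (S : ℕ → ℕ → ℕ) : Bool :=
  allB m fun i => allB m fun j => allB 3 fun T => allB 3 fun e =>
    !(Nat.ble (i + m + 1) (2 * j + T * m + e)) ||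
    !(Nat.blt (2 * j + T * m + e - (i + m + 1)) m) ||
    (Nat.beq i j && Nat.beq j (2 * j + T * m + e - (i + m + 1))) ||
    allB 3 fun T' =>
      far (τ i + τ (2 * j + T * m + e - (i + m + 1)) + m) (2 * τ j + T' * m) ||
      chkInner L S i j (2 * j + T * m + e - (i + m + 1)) e
        (τ i + τ (2 * j + T * m + e - (i + m + 1)) + m) (2 * τ j + T' * m)

theorem chkInner_spec {L : ℕ} {S : ℕ → ℕ → ℕ} {i j k e P Q : ℕ}
    (h : chkInner L S i j k e P Q = true) {al be ga : ℕ} (ha : al < L) (hb : be < L)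
    (hg : ga < L) (h1 : Near (((e : ℤ) - 1) * L + (al + ga - 2 * be))) :
    ¬ Near (((P : ℤ) - Q) * L + (S i al + S k ga - 2 * S j be)) := by
  unfold Near at h1
  obtain ⟨f, hf3, hf⟩ : ∃ f : ℕ, f < 3 ∧ (ga : ℤ) = 2 * be + f + L - (al + 1 + e * L) := by
    refine ⟨(((e : ℤ) - 1) * L + (al + ga - 2 * be) + 1).toNat, by omega, ?_⟩
    rw [Int.toNat_of_nonneg (by omega)]
    ring
  have hg' : ga = 2 * be + f + L - (al + 1 + e * L) := by
    zify [show al + 1 + e * L ≤ 2 * be + f + L by zify; omega]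
    omega
  have hle : al + 1 + e * L ≤ 2 * be + f + L := by zify; omega
  have h3 := allB_spec (allB_spec (allB_spec h al ha) be hb) f hf3
  rw [← hg', Bool.or_eq_true, Bool.or_eq_true] at h3
  rcases h3 with (h3 | h3) | h3
  · rw [Bool.not_eq_true', ← Bool.not_eq_true, Nat.ble_eq] at h3
    exact (h3 hle).elim
  · rw [Bool.not_eq_true', ← Bool.not_eq_true, Nat.blt_eq] at h3
    exact (h3 hg).elim
  · have h4 := far_spec h3
    push_cast at h4
    have h5 : (P : ℤ) * L + S i al + S k ga - (Q * L + 2 * S j be) =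
        ((P : ℤ) - Q) * L + (S i al + S k ga - 2 * S j be) := by ring
    rwa [h5] at h4

/-- The integer version of a family of functions. -/
def ext2 (S : ℕ → ℕ → ℕ) (i : ℤ) : ℤ → ℤ := ext (S i.toNat)

theorem good_of_chkT {m L : ℕ} {τ : ℕ → ℕ} {S : ℕ → ℕ → ℕ} (hm : 2 ≤ m) (hL : 0 < L)
    (h1 : chkPerm m τ = true) (h2 : chkT m L τ S = true)
    (hS : ∀ i, i < m → Good 0 L (ext (S i))) :
    Good 1 ((m : ℤ) * L) (eblow L (ext τ) (ext2 S)) := by
  apply eblow_good (by omega) le_rfl (by omega) (by omega)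
  · intro i hi0 hi
    obtain ⟨i, rfl⟩ := Int.eq_ofNat_of_zero_le hi0
    have := (chkPerm_spec h1).1 i (by omega)
    unfold ext
    simp only [Int.toNat_natCast]
    omega
  · intro i j hi0 hi hj0 hj hij
    obtain ⟨i, rfl⟩ := Int.eq_ofNat_of_zero_le hi0
    obtain ⟨j, rfl⟩ := Int.eq_ofNat_of_zero_le hj0
    unfold ext at hij
    simp only [Int.toNat_natCast] at hij
    have := (chkPerm_spec h1).2 i j (by omega) (by omega) (by omega)
    rw [this]
  · intro i hi0 hi
    obtain ⟨i, rfl⟩ := Int.eq_ofNat_of_zero_le hi0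
    exact hS i (by omega)
  · intro i j k t t' hi0 hi hj0 hj hk0 hk ht1 ht2 ht1' ht2' hn hn' hne al be ga ha0 ha hb0 hb
      hg0 hg hc hc'
    obtain ⟨i, rfl⟩ := Int.eq_ofNat_of_zero_le hi0
    obtain ⟨j, rfl⟩ := Int.eq_ofNat_of_zero_le hj0
    obtain ⟨k, rfl⟩ := Int.eq_ofNat_of_zero_le hk0
    obtain ⟨al, rfl⟩ := Int.eq_ofNat_of_zero_le ha0
    obtain ⟨be, rfl⟩ := Int.eq_ofNat_of_zero_le hb0
    obtain ⟨ga, rfl⟩ := Int.eq_ofNat_of_zero_le hg0
    unfold ext2 ext at hc'
    unfold ext at hn'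
    simp only [Int.toNat_natCast] at hn' hc'
    obtain ⟨T, hT3, hT⟩ : ∃ T : ℕ, T < 3 ∧ t = (T : ℤ) - 1 := ⟨(t + 1).toNat, by omega, by omega⟩
    obtain ⟨T', hT3', hT'⟩ : ∃ T' : ℕ, T' < 3 ∧ t' = (T' : ℤ) - 1 :=
      ⟨(t' + 1).toNat, by omega, by omega⟩
    subst hT
    subst hT'
    have hn2 := hn
    unfold Near at hn2
    obtain ⟨e, he3, he⟩ : ∃ e : ℕ, e < 3 ∧
        (i : ℤ) + k - 2 * j - ((T : ℤ) - 1) * m = e - 1 :=
      ⟨((i : ℤ) + k - 2 * j - ((T : ℤ) - 1) * m + 1).toNat, by omega, by omega⟩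
    have hk1 : (k : ℤ) + (i + m + 1) = 2 * j + T * m + e := by
      have : ((T : ℤ) - 1) * m = T * m - m := by ring
      omega
    have hk2 : k + (i + m + 1) = 2 * j + T * m + e := by exact_mod_cast hk1
    have hk' : 2 * j + T * m + e - (i + m + 1) = k := by omega
    have h3 := allB_spec (allB_spec (allB_spec (allB_spec h2 i (by omega)) j (by omega)) T hT3)
      e he3
    rw [hk', Bool.or_eq_true, Bool.or_eq_true, Bool.or_eq_true] at h3
    rcases h3 with ((h3 | h3) | h3) | h3
    · rw [Bool.not_eq_true', ← Bool.not_eq_true, Nat.ble_eq] at h3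
      omega
    · rw [Bool.not_eq_true', ← Bool.not_eq_true, Nat.blt_eq] at h3
      omega
    · rw [Bool.and_eq_true, Nat.beq_eq, Nat.beq_eq] at h3
      omega
    · have h4 := allB_spec h3 T' hT3'
      rw [Bool.or_eq_true] at h4
      have e2 : ((τ i : ℤ) + τ k - 2 * τ j - ((T' : ℤ) - 1) * m) =
          ((τ i + τ k + m : ℕ) : ℤ) - ((2 * τ j + T' * m : ℕ) : ℤ) := by
        push_cast; ring
      rw [he] at hc
      rw [e2] at hc' hn'
      rcases h4 with h4 | h4
      · exact far_spec h4 hn'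
      · exact chkInner_spec h4 (by omega) (by omega) (by omega) hc hc'

end Pool.Agent.Lib.MP_147277_co
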