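import Pool.Agent.Lib.MP_147277_co.Facts

set_option autoImplicit false

namespace Pool.Agent.Lib.MP_147277_co

/-- There is a good permutation of `[0,n)` with end windows of width `w`. -/
def Nice (w n : ℤ) : Prop :=
  ∃ g, Good 0 n g ∧ ∃ lo hi, 3 * n ≤ 10 * lo ∧ 10 * hi ≤ 4 * n ∧ Ends w lo hi n g

theorem Nice.mono {w w' n : ℤ} (h : Nice w n) (hw : w' ≤ w) : Nice w' n := by
  obtain ⟨g, hg, lo, hi, h1, h2, h3⟩ := h
  exact ⟨g, hg, lo, hi, h1, h2, h3.mono hw le_rfl le_rfl⟩

theorem nice_step {m u : ℤ} {τ : ℤ → ℤ} (hm : 3 ≤ m) (hτ : Good 0 m τ) (hu : Corner m u τ)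
    (hu1 : 3 * m + 1 ≤ 10 * u + 3) (hu2 : 10 * u + 5 ≤ 4 * m) {w L r : ℤ}
    (hw : 3 * m + 3 ≤ w) (hL : 10 * w ≤ L) (hr0 : 0 ≤ r) (hr : r ≤ m)
    (h0 : Nice w L) (h1 : Nice w (L + 1)) : Nice w (m * L + r) := by
  obtain ⟨g0, hg0, lo0, hi0, a0, b0, c0⟩ := h0
  obtain ⟨g1, hg1, lo1, hi1, a1, b1, c1⟩ := h1
  have hs : Setup 0 m r L w τ g0 g1 :=
    ⟨le_rfl, by omega, hm, hr0, hr, hw, hL, hτ, hg0, hg1, c0.win a0 b0, c1.win a1 b1⟩
  have he := hs.blow_ends hu (v := w) (lo := min lo0 lo1) (hi := max hi0 hi1) (by omega)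
    (c0.mono le_rfl (min_le_left _ _) (le_max_left _ _))
    (c1.mono le_rfl (min_le_right _ _) (le_max_right _ _))
  refine ⟨_, hs.blow_good, _, _, ?_, ?_, he⟩
  · have h1 : (3 * m + 1) * L ≤ (10 * u + 3) * L := mul_le_mul_of_nonneg_right hu1 (by omega)
    have h2 : (3 * m + 1) * L = 3 * (m * L) + L := by ring
    have h3 : (10 * u + 3) * L = 10 * (u * L) + 3 * L := by ring
    have h4 : L * 3 ≤ 10 * min lo0 lo1 := by
      rcases min_choice lo0 lo1 with h | h <;> rw [h] <;> omega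
    omega
  · have h1 : (10 * u + 5) * L ≤ (4 * m) * L := mul_le_mul_of_nonneg_right hu2 (by omega)
    have h2 : (10 * u + 5) * L = 10 * (u * L) + 5 * L := by ring
    have h3 : (4 * m) * L = 4 * (m * L) := by ring
    have h4 : 10 * max hi0 hi1 ≤ 4 * L + 4 := by
      rcases max_choice hi0 hi1 with h | h <;> rw [h] <;> omega
    omega

theorem corner4 : Corner 4 1 (ext (look 8 T4)) :=
  ⟨by norm_num, by norm_num, by decide +kernel, by decide +kernel, by decide +kernel,
    by decide +kernel⟩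

theorem corner13 : Corner 13 4 (ext (look 8 T13)) :=
  ⟨by norm_num, by norm_num, by decide +kernel, by decide +kernel, by decide +kernel,
    by decide +kernel⟩

theorem nice688 : Nice 43 688 := by
  have h16 : Good 0 ((4 : ℤ) * 4) (eblow 4 (ext (look 8 T4)) fun _ => ext (look 8 T4)) :=
    eblow_good' le_rfl (by norm_num) (by norm_num) (by norm_num) good4 good4
  have c16 := eblow_corner (by norm_num) corner4 corner4
  have h := eblow_good' le_rfl (by norm_num) (by norm_num) (by norm_num) h16 good43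
  have e := eblow_ends (by norm_num) h16 good43 c16
  norm_num at h e
  exact ⟨_, h, _, _, by norm_num, by norm_num, e⟩

theorem nice689 : Nice 43 689 := by
  have h := eblow_good' le_rfl (by norm_num) (by norm_num) (by norm_num) good13 good53
  have e := eblow_ends (by norm_num) good13 good53 corner13
  norm_num at h e
  exact ⟨_, h, _, _, by norm_num, by norm_num, e.mono (w' := 43) (by norm_num) le_rfl le_rfl⟩

/-- All sizes between `X` and `Y` are nice. -/
def Seg (X Y : ℤ) : Prop := ∀ l, X ≤ l → l ≤ Y → Nice 43 l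

theorem seg_mul {m u : ℤ} {τ : ℤ → ℤ} (hm : 3 ≤ m) (hm' : m ≤ 13) (hτ : Good 0 m τ)
    (hu : Corner m u τ)
    (hu1 : 3 * m + 1 ≤ 10 * u + 3) (hu2 : 10 * u + 5 ≤ 4 * m) {X Y : ℤ} (hX : 430 ≤ X)
    (hXY : X < Y) (h : Seg X Y) : Seg (m * X) (m * Y) := by
  intro l hl1 hl2
  have hmp : 0 < m := by omega
  obtain ⟨q, r, hr0, hr, hq1, hq2, he⟩ : ∃ q r : ℤ, 0 ≤ r ∧ r ≤ m ∧ X ≤ q ∧ q < Y ∧
      l = m * q + r := by
    have h1 := Int.mul_ediv_add_emod l m
    have h2 := Int.emod_nonneg l (show m ≠ 0 by omega)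
    have h3 := Int.emod_lt_of_pos l hmp
    have h4 : X ≤ l / m := by
      rw [Int.le_ediv_iff_mul_le hmp]
      linarith [mul_comm m X]
    have h5 : l / m ≤ Y := by
      have : l / m < Y + 1 := by
        rw [Int.ediv_lt_iff_lt_mul hmp]
        nlinarith
      omega
    rcases lt_or_eq_of_le h5 with h6 | h6
    · exact ⟨l / m, l % m, h2, h3.le, h4, h6, h1.symm⟩
    · refine ⟨Y - 1, m, hmp.le, le_rfl, by omega, by omega, ?_⟩
      rw [h6] at h1
      have h7 : m * (Y - 1) = m * Y - m := by ring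
      omega
  rw [he]
  exact nice_step hm hτ hu hu1 hu2 (by omega) (by omega) hr0 hr (h q hq1 (by omega))
    (h (q + 1) (by omega) (by omega))

theorem seg_pow (a b : ℕ) : Seg (4 ^ a * 13 ^ b * 688) (4 ^ a * 13 ^ b * 689) := by
  have key : ∀ n : ℤ, 1 ≤ n → Seg (n * 688) (n * 689) →
      Seg (4 * n * 688) (4 * n * 689) ∧ Seg (13 * n * 688) (13 * n * 689) := by
    intro n hn h
    constructor
    · have := seg_mul (by norm_num) (by norm_num) good4 corner4 (by norm_num) (by norm_num)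
        (by omega) (by omega) h
      simpa [mul_assoc] using this
    · have := seg_mul (by norm_num) (by norm_num) good13 corner13 (by norm_num) (by norm_num)
        (by omega) (by omega) h
      simpa [mul_assoc] using this
  induction a with
  | zero =>
    induction b with
    | zero =>
      intro l h1 h2
      norm_num at h1 h2
      have : l = 688 ∨ l = 689 := by omega
      rcases this with rfl | rfl
      · exact nice688
      · exact nice689
    | succ b ih =>
      have h1 : (1 : ℤ) ≤ 4 ^ 0 * 13 ^ b := by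
        have : (0 : ℤ) < 4 ^ 0 * 13 ^ b := by positivity
        omega
      have := (key _ h1 ih).2
      have e : (4 : ℤ) ^ 0 * 13 ^ (b + 1) = 13 * (4 ^ 0 * 13 ^ b) := by ring
      rwa [e]
  | succ a ih =>
    have h1 : (1 : ℤ) ≤ 4 ^ a * 13 ^ b := by
      have : (0 : ℤ) < 4 ^ a * 13 ^ b := by positivity
      omega
    have := (key _ h1 ih).1
    have e : (4 : ℤ) ^ (a + 1) * 13 ^ b = 4 * (4 ^ a * 13 ^ b) := by ring
    rwa [e]

set_option exponentiation.threshold 1000 in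
/-- Consecutive segments overlap along the chain `13 ^ (227 (K - j)) * 4 ^ (420 j)`. -/
theorem seg_chain (K j : ℕ) (hj : j ≤ K) :
    Seg (13 ^ (227 * K) * 688) (4 ^ (420 * j) * 13 ^ (227 * (K - j)) * 689) := by
  induction j with
  | zero =>
    have h := seg_pow 0 (227 * K)
    simpa using h
  | succ j ih =>
    have ih' := ih (by omega)
    have h := seg_pow (420 * (j + 1)) (227 * (K - (j + 1)))
    intro l hl1 hl2
    by_cases hl : l ≤ 4 ^ (420 * j) * 13 ^ (227 * (K - j)) * 689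
    · exact ih' l hl1 hl
    · refine h l ?_ hl2
      have e1 : (4 : ℤ) ^ (420 * (j + 1)) * 13 ^ (227 * (K - (j + 1))) * 688 =
          (4 ^ (420 * j) * 13 ^ (227 * (K - (j + 1)))) * (4 ^ 420 * 688) := by
        rw [Nat.mul_succ, pow_add]; ring
      have e2 : (4 : ℤ) ^ (420 * j) * 13 ^ (227 * (K - j)) * 689 =
          (4 ^ (420 * j) * 13 ^ (227 * (K - (j + 1)))) * (13 ^ 227 * 689) := by
        have : 227 * (K - j) = 227 * (K - (j + 1)) + 227 := by omega
        rw [this, pow_add]; ring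
      have e3 : (4 : ℤ) ^ 420 * 688 ≤ 13 ^ 227 * 689 := by decide +kernel
      have e4 : (4 : ℤ) ^ (420 * (j + 1)) * 13 ^ (227 * (K - (j + 1))) * 688 ≤
          4 ^ (420 * j) * 13 ^ (227 * (K - j)) * 689 := by
        rw [e1, e2]
        exact mul_le_mul_of_nonneg_left e3 (by positivity)
      omega

set_option exponentiation.threshold 1000 in
theorem exists_seg : ∃ X : ℤ, 430 ≤ X ∧ Seg X (4 * X + 4) := by
  have hr : (1 : ℚ) < 4 ^ 420 / 13 ^ 227 := by
    rw [one_lt_div (by positivity)]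
    have : (13 : ℤ) ^ 227 < 4 ^ 420 := by decide +kernel
    exact_mod_cast this
  obtain ⟨K, hK⟩ := pow_unbounded_of_one_lt (5 : ℚ) hr
  have hK' : (5 : ℤ) * 13 ^ (227 * K) < 4 ^ (420 * K) := by
    rw [div_pow, ← pow_mul, ← pow_mul, lt_div_iff₀ (by positivity)] at hK
    exact_mod_cast hK
  have hpos : (1 : ℤ) ≤ 13 ^ (227 * K) := one_le_pow₀ (by norm_num)
  refine ⟨13 ^ (227 * K) * 688, by omega, ?_⟩
  have h := seg_chain K K le_rfl
  simp only [Nat.sub_self, mul_zero, pow_zero, mul_one] at h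
  intro l h1 h2
  exact h l h1 (by omega)

/-- All large sizes are nice. -/
theorem exists_nice : ∃ X : ℤ, 430 ≤ X ∧ ∀ l, X ≤ l → Nice 43 l := by
  obtain ⟨X, hX, h⟩ := exists_seg
  refine ⟨X, hX, ?_⟩
  have key : ∀ n : ℕ, ∀ l : ℤ, l.toNat = n → X ≤ l → Nice 43 l := by
    intro n
    induction n using Nat.strong_induction_on with
    | _ n ih =>
      intro l hl hXl
      by_cases hs : l ≤ 4 * X + 4
      · exact h l hXl hs
      · have h1 := Int.mul_ediv_add_emod l 4
        have h2 := Int.emod_nonneg l (show (4 : ℤ) ≠ 0 by norm_num)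
        have h3 := Int.emod_lt_of_pos l (show (0 : ℤ) < 4 by norm_num)
        rw [← h1]
        exact nice_step (by norm_num) good4 corner4 (by norm_num) (by norm_num)
          (by norm_num) (by omega) h2 (by push_cast; omega)
          (ih _ (by omega) _ rfl (by omega)) (ih _ (by omega) _ rfl (by omega))
  exact fun l hl => key _ l rfl hl

theorem trivial_ends {n v H : ℤ} {g : ℤ → ℤ} (hg : Good 0 n g) (hH : n ≤ H) :
    Ends v 0 H n g where
  front x h0 h1 _ := by
    have := hg.range x h0 h1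
    omega
  back x h0 h1 _ := by
    have := hg.range x h0 h1
    omega
  ifront x h0 h1 _ := by omega
  iback x h0 h1 _ := by omega

/-- One level with the template on four points, recording wide end windows. -/
theorem level1 {L r : ℤ} (hL : 430 ≤ L) (hr0 : 0 ≤ r) (hr : r ≤ 4) (h0 : Nice 43 L)
    (h1 : Nice 43 (L + 1)) :
    ∃ g, Good 0 (4 * L + r) g ∧ Win 43 (4 * L + r) g ∧ Ends L L (2 * L + 5) (4 * L + r) g := by
  obtain ⟨g0, hg0, lo0, hi0, a0, b0, c0⟩ := h0
  obtain ⟨g1, hg1, lo1, hi1, a1, b1, c1⟩ := h1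
  have hs : Setup 0 4 r L 43 (ext (look 8 T4)) g0 g1 :=
    ⟨le_rfl, by omega, by norm_num, hr0, hr, by norm_num, by omega, good4, hg0, hg1,
      c0.win a0 b0, c1.win a1 b1⟩
  have he := hs.blow_ends corner4 (v := 43) (lo := min lo0 lo1) (hi := max hi0 hi1) (by omega)
    (c0.mono le_rfl (min_le_left _ _) (le_max_left _ _))
    (c1.mono le_rfl (min_le_right _ _) (le_max_right _ _))
  have he2 := hs.blow_ends corner4 (v := L) (lo := 0) (hi := L + 1) (by omega)
    (trivial_ends hg0 (by omega)) (trivial_ends hg1 le_rfl)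
  refine ⟨_, hs.blow_good, ?_, he2.mono le_rfl (by omega) (by omega)⟩
  have h4 : L * 3 ≤ 10 * min lo0 lo1 := by
    rcases min_choice lo0 lo1 with h | h <;> rw [h] <;> omega
  have h5 : 10 * max hi0 hi1 ≤ 4 * L + 4 := by
    rcases max_choice hi0 hi1 with h | h <;> rw [h] <;> omega
  exact he.win (by omega) (by omega)

/-- Second level. -/
theorem level2 {L r v lo hi : ℤ} {g0 g1 : ℤ → ℤ} (hL : 430 ≤ L) (hr0 : 0 ≤ r) (hr : r ≤ 4)
    (hv : v ≤ L) (hg0 : Good 0 L g0) (hg1 : Good 0 (L + 1) g1) (w0 : Win 43 L g0)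
    (w1 : Win 43 (L + 1) g1) (e0 : Ends v lo hi L g0) (e1 : Ends v lo hi (L + 1) g1) :
    ∃ g, Good 0 (4 * L + r) g ∧ Ends v (L + lo) (L + 4 + hi) (4 * L + r) g := by
  have hs : Setup 0 4 r L 43 (ext (look 8 T4)) g0 g1 :=
    ⟨le_rfl, by omega, by norm_num, hr0, hr, by norm_num, by omega, good4, hg0, hg1, w0, w1⟩
  have he2 := hs.blow_ends corner4 hv e0 e1
  exact ⟨_, hs.blow_good, he2.mono le_rfl (by omega) (by omega)⟩

/-- Every window width is available for all large sizes. -/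
theorem exists_nice_width (w : ℤ) : ∃ X : ℤ, ∀ l, X ≤ l → Nice w l := by
  obtain ⟨X, hX, h⟩ := exists_nice
  refine ⟨16 * (max X w) + 20, ?_⟩
  intro l hl
  have hX' : X ≤ max X w := le_max_left _ _
  have hw' : w ≤ max X w := le_max_right _ _
  obtain ⟨n1, r1, hr10, hr1, e1⟩ : ∃ n1 r1 : ℤ, 0 ≤ r1 ∧ r1 ≤ 3 ∧ l = 4 * n1 + r1 :=
    ⟨l / 4, l % 4, by omega, by omega, by omega⟩
  obtain ⟨n2, r2, hr20, hr2, e2⟩ : ∃ n2 r2 : ℤ, 0 ≤ r2 ∧ r2 ≤ 3 ∧ n1 = 4 * n2 + r2 :=
    ⟨n1 / 4, n1 % 4, by omega, by omega, by omega⟩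
  have hn2 : max X w ≤ n2 := by omega
  obtain ⟨ga, hga, wa, ea⟩ := level1 (L := n2) (r := r2) (by omega) hr20 (by omega)
    (h _ (by omega)) (h _ (by omega))
  obtain ⟨gb, hgb, wb, eb⟩ := level1 (L := n2) (r := r2 + 1) (by omega) (by omega) (by omega)
    (h _ (by omega)) (h _ (by omega))
  rw [← add_assoc, ← e2] at hgb wb eb
  rw [← e2] at hga wa ea
  obtain ⟨g, hg, eg⟩ := level2 (r := r1) (by omega) hr10 (by omega) (by omega) hga hgb wa wb ea eb
  rw [← e1] at hg eg
  exact ⟨g, hg, _, _, by omega, by omega, eg.mono (by omega) le_rfl le_rfl⟩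

/-- Good cyclic permutations of all large sizes. -/
theorem exists_cyclic : ∃ X : ℤ, 0 < X ∧ ∀ n, X ≤ n → ∃ f, Good 1 n f := by
  obtain ⟨X, hX⟩ := exists_nice_width 4851
  refine ⟨1616 * max X 48510 + 1, ?_, ?_⟩
  · have := le_max_right X 48510
    omega
  intro n hn
  have h1 := le_max_left X 48510
  have h2 := le_max_right X 48510
  obtain ⟨L, r, hr0, hr, e⟩ : ∃ L r : ℤ, 0 ≤ r ∧ r ≤ 1615 ∧ n = 1616 * L + r :=
    ⟨n / 1616, n % 1616, by omega, by omega, by omega⟩
  have hL : max X 48510 ≤ L := by omega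
  obtain ⟨g0, hg0, lo0, hi0, a0, b0, c0⟩ := hX L (by omega)
  obtain ⟨g1, hg1, lo1, hi1, a1, b1, c1⟩ := hX (L + 1) (by omega)
  have ht := good1616
  have e16 : (((101 : ℕ) : ℤ) * ((16 : ℕ) : ℤ)) = 1616 := by norm_num
  rw [e16] at ht
  have hs : Setup 1 1616 r L 4851 _ g0 g1 :=
    ⟨by norm_num, le_rfl, by norm_num, hr0, by omega, by norm_num, by omega, ht, hg0, hg1,
      c0.win a0 b0, c1.win a1 b1⟩
  exact ⟨_, by rw [e]; exact hs.blow_good⟩

end Pool.Agent.Lib.MP_147277_co
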