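import Pool.Agent.Lib.MP_147277_co.Check

set_option autoImplicit false

namespace Pool.Agent.Lib.MP_147277_co

/-- Byte table of the template on four points. -/
def T4 : ℕ := 0x2000301

/-- Byte table of the template on thirteen points. -/
def T13 : ℕ := 0x806010700030b090c0a050204

/-- Byte table of a permutation of forty-three points. -/
def T43 : ℕ := 0x11041507281c2a0e130c1f1a2505240f081b1e09012900260b271221231d2202170a1603062019140d1810

/-- Byte table of a permutation of fifty-three points. -/
def T53 : ℕ :=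
  0xa151b1905220b1d09241a1833022c212a1f043230230e2b00292f0d1103310617121608012807340f26102e270c2d1c13251e2014

/-- Byte table of the cyclic template on one hundred and one blocks. -/
def T101 : ℕ :=
  0x2b60184d294c30512352324f1b542c5f1d622e552f6420043105225d25033c082d582806375c2a0e395e4063430f3e003b013461450d3816420733024b113a1a350b360a3f17501c41194a1e3d094e0c53214412471f56105915481349275a245b14462657

/-- Half-byte table of the one hundred and one inner permutations of sixteen points. -/
def S101 : ℕ :=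
  0xb3af2e796180d5c44d5c18069f7e2b3a9b58df1c3e027a46b42736ecfd5918a035be027a68df149c9b58df1c3e027a469b58df1c3e027a469b58df1c3e027a469b58df1c3e027a46c941fd86a720eb539b58df1c3e027a469b58df1c3e027a469b58df1c3e027a4636ce027a58df149ba6be8fc2d30714955941703d2cf8eb6a9b58df1c3e027a469b58df1c3e027a469b58df1c3e027a469b58df1c3e027a469b58df1c3e027a469b58df1c3e027a469b58df1c3e027a46b931fd85a702ec4669241ecfd038a57b5941703d2cf8eb6a9b58df1c3e027a464d5c18069e7f2a3b859702ebfd461ac39b58df1c3e027a469b58df1c3e027a469b58df1c3e027a469b58df1c3e027a469b58df1c3e027a469b58df1c3e027a469b58df1c3e027a469b58df1c3e027a469b58df1c3e027a469b58df1c3e027a469b58df1c3e027a46e3806f7b14295cad9b58df1c3e027a464c50d8169e72fb3a9b58df1c3e027a469b58df1c3e027a464c5d081697e2fa3b9b58df1c3e027a469b58df1c3e027a469b58df1c3e027a46538620e4b1fd97ca46ce027a58df139b4c50d1869e72fa3b538620e4b1fd97ca4c50d18697e2fa3b9b58df1c3e027a469b58df1c3e027a46947c8b2031af6d5e9b58df1c3e027a46460ac5b82f1d37e99b58df1c3e027a469b58df1c3e027a469b58df1c3e027a469b58df1c3e027a46b3a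2f7e96081d5c4a6b8e2fc30d17495a6b8e20c3fd17495ac9b314e0d2f68579b58df1c3e027a46b3a2f7e691805d4c9b58df1c3e027a469b58df1c3e027a46b3a2f7e96180d4c59b58df1c3e027a469b58df1c3e027a469b58df1c3e027a469b58df1c3e027a469b58df1c3e027a464c50d8169e7f2a3b9b58df1c3e027a469b58df1c3e027a46b3a2e7f9618d05c4b941fd85a720ce639b58df1c3e027a469b58df1c3e027a469b58df1c3e027a4646ce028a57df139b5941703d2cf8eb6a9b58df1c3e027a469b58df1c3e027a46b931df85a720ec649b58df1c3e027a46b490a3e2df61857c9b58df1c3e027a469b58df1c3e027a46a6be8fc2d30714959b58df1c3e027a469b58df1c3e027a469b58df1c3e027a469b58df1c3e027a469b58df1c3e027a469b58df1c3e027a46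

end Pool.Agent.Lib.MP_147277_co
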