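import Pool.Agent.Lib.MP_147277_co.Blow

set_option autoImplicit false

namespace Pool.Agent.Lib.MP_147277_co

/-- Blow-up with blocks of the same size `L` and one inner permutation per block. -/
def eblow (L : ℤ) (τ : ℤ → ℤ) (σ : ℤ → ℤ → ℤ) (x : ℤ) : ℤ := τ (x / L) * L + σ (x / L) (x % L)

theorem split_point {m L x : ℤ} (hL : 0 < L) (hx0 : 0 ≤ x) (hx : x < m * L) :
    0 ≤ x / L ∧ x / L < m ∧ 0 ≤ x % L ∧ x % L < L ∧ x = x / L * L + x % L := by
  refine ⟨Int.ediv_nonneg hx0 hL.le, Int.ediv_lt_of_lt_mul hL hx,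
    Int.emod_nonneg x (by omega), Int.emod_lt_of_pos x hL, ?_⟩
  have := Int.mul_ediv_add_emod x L
  have h2 : L * (x / L) = x / L * L := by ring
  omega

/-- A multiple of `L` plus a term of size at most `2L-2` is near zero only if the factor is. -/
theorem near_factor {L q s : ℤ} (hL : 0 < L) (h1 : -(2 * L - 2) ≤ s) (h2 : s ≤ 2 * L - 2)
    (h : Near (q * L + s)) : Near q := by
  obtain ⟨h3, h4⟩ := h
  constructor
  · by_contra hq
    have : q * L ≤ -2 * L := mul_le_mul_of_nonneg_right (by omega) hL.le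
    omega
  · by_contra hq
    have : 2 * L ≤ q * L := mul_le_mul_of_nonneg_right (by omega) hL.le
    omega

theorem eblow_good {c m L : ℤ} {τ : ℤ → ℤ} {σ : ℤ → ℤ → ℤ} (hc0 : 0 ≤ c) (hc1 : c ≤ 1)
    (hm : 2 ≤ m) (hL : 0 < L)
    (hrange : ∀ i, 0 ≤ i → i < m → 0 ≤ τ i ∧ τ i < m)
    (hinj : ∀ i j, 0 ≤ i → i < m → 0 ≤ j → j < m → τ i = τ j → i = j)
    (hσ : ∀ i, 0 ≤ i → i < m → Good 0 L (σ i))
    (hbad : ∀ i j k t t', 0 ≤ i → i < m → 0 ≤ j → j < m → 0 ≤ k → k < m →
      -c ≤ t → t ≤ c → -c ≤ t' → t' ≤ c →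
      Near (i + k - 2 * j - t * m) → Near (τ i + τ k - 2 * τ j - t' * m) → ¬ (i = j ∧ j = k) →
      ∀ al be ga, 0 ≤ al → al < L → 0 ≤ be → be < L → 0 ≤ ga → ga < L →
        Near ((i + k - 2 * j - t * m) * L + (al + ga - 2 * be)) →
        Near ((τ i + τ k - 2 * τ j - t' * m) * L + (σ i al + σ k ga - 2 * σ j be)) → False) :
    Good c (m * L) (eblow L τ σ) where
  range x hx0 hx := by
    obtain ⟨hi0, hi, ha0, ha, hxe⟩ := split_point hL hx0 hx
    have h1 := hrange _ hi0 hi
    have h2 := (hσ _ hi0 hi).range _ ha0 ha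
    have h3 : 0 * L ≤ τ (x / L) * L := mul_le_mul_of_nonneg_right h1.1 hL.le
    have h4 : (τ (x / L) + 1) * L ≤ m * L := mul_le_mul_of_nonneg_right (by omega) hL.le
    have h5 : (τ (x / L) + 1) * L = τ (x / L) * L + L := by ring
    unfold eblow
    constructor <;> omega
  inj x y hx0 hx hy0 hy hxy := by
    obtain ⟨hi0, hi, ha0, ha, hxe⟩ := split_point hL hx0 hx
    obtain ⟨hj0, hj, hb0, hb, hye⟩ := split_point hL hy0 hy
    have h2 := (hσ _ hi0 hi).range _ ha0 ha
    have h3 := (hσ _ hj0 hj).range _ hb0 hb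
    unfold eblow at hxy
    have hτ : τ (x / L) = τ (y / L) := by
      rcases lt_trichotomy (τ (x / L)) (τ (y / L)) with h | h | h
      · have h4 : (τ (x / L) + 1) * L ≤ τ (y / L) * L :=
          mul_le_mul_of_nonneg_right (by omega) hL.le
        have h5 : (τ (x / L) + 1) * L = τ (x / L) * L + L := by ring
        omega
      · exact h
      · have h4 : (τ (y / L) + 1) * L ≤ τ (x / L) * L :=
          mul_le_mul_of_nonneg_right (by omega) hL.le
        have h5 : (τ (y / L) + 1) * L = τ (y / L) * L + L := by ring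
        omega
    have hij := hinj _ _ hi0 hi hj0 hj hτ
    rw [hij] at hxy hxe
    have := (hσ _ hj0 hj).inj (x % L) (y % L) ha0 ha hb0 hb (by omega)
    omega
  good x y z t t' hx0 hx hy0 hy hz0 hz ht1 ht2 ht1' ht2' hn hn' := by
    obtain ⟨hi0, hi, ha0, ha, hxe⟩ := split_point hL hx0 hx
    obtain ⟨hj0, hj, hb0, hb, hye⟩ := split_point hL hy0 hy
    obtain ⟨hk0, hk, hg0, hg, hze⟩ := split_point hL hz0 hz
    have hA := (hσ _ hi0 hi).range _ ha0 ha
    have hB := (hσ _ hj0 hj).range _ hb0 hb
    have hC := (hσ _ hk0 hk).range _ hg0 hg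
    unfold eblow at hn'
    generalize hi' : x / L = i at *
    generalize hj' : y / L = j at *
    generalize hk' : z / L = k at *
    generalize ha' : x % L = al at *
    generalize hb' : y % L = be at *
    generalize hg' : z % L = ga at *
    have e1 : x + z - 2 * y - t * (m * L) =
        (i + k - 2 * j - t * m) * L + (al + ga - 2 * be) := by
      rw [hxe, hye, hze]; ring
    have e2 : τ i * L + σ i al + (τ k * L + σ k ga) - 2 * (τ j * L + σ j be) - t' * (m * L) =
        (τ i + τ k - 2 * τ j - t' * m) * L + (σ i al + σ k ga - 2 * σ j be) := by ring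
    rw [e1] at hn
    rw [e2] at hn'
    have k1 := near_factor hL (by omega) (by omega) hn
    have k2 := near_factor hL (by omega) (by omega) hn'
    by_cases hne : i = j ∧ j = k
    · obtain ⟨rfl, rfl⟩ := hne
      have ht : t = 0 := by
        have : t = -1 ∨ t = 0 ∨ t = 1 := by omega
        unfold Near at k1
        rcases this with rfl | rfl | rfl <;> omega
      have ht' : t' = 0 := by
        have : t' = -1 ∨ t' = 0 ∨ t' = 1 := by omega
        unfold Near at k2
        rcases this with rfl | rfl | rfl <;> omega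
      subst ht
      subst ht'
      have hfin := (hσ i hi0 hi).good al be ga 0 0 ha0 ha hb0 hb hg0 hg (by omega) (by omega)
        (by omega) (by omega)
        (by
          have : (i + i - 2 * i - 0 * m) * L + (al + ga - 2 * be) =
            al + ga - 2 * be - 0 * L := by ring
          rwa [this] at hn)
        (by
          have : (τ i + τ i - 2 * τ i - 0 * m) * L + (σ i al + σ i ga - 2 * σ i be) =
            σ i al + σ i ga - 2 * σ i be - 0 * L := by ring
          rwa [this] at hn')
      omega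
    · exact (hbad i j k t t' hi0 hi hj0 hj hk0 hk ht1 ht2 ht1' ht2' k1 k2 hne al be ga ha0 ha
        hb0 hb hg0 hg hn hn').elim

/-- Exact blow-up of a good template. -/
theorem eblow_good' {c m L : ℤ} {τ g : ℤ → ℤ} (hc0 : 0 ≤ c) (hc1 : c ≤ 1)
    (hm : 2 ≤ m) (hL : 0 < L) (hτ : Good c m τ) (hg : Good 0 L g) :
    Good c (m * L) (eblow L τ (fun _ => g)) :=
  eblow_good hc0 hc1 hm hL hτ.range hτ.inj (fun _ _ _ => hg)
    (fun i j k t t' hi0 hi hj0 hj hk0 hk ht1 ht2 ht1' ht2' hn hn' hne => by
      exact (hne (hτ.good i j k t t' hi0 hi hj0 hj hk0 hk ht1 ht2 ht1' ht2' hn hn')).elim)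

/-- End windows of an exact blow-up. -/
theorem eblow_ends {m L u : ℤ} {τ g : ℤ → ℤ} (hL : 0 < L) (hτ : Good 0 m τ) (hg : Good 0 L g)
    (hu : Corner m u τ) : Ends L (u * L) (u * L + L) (m * L) (eblow L τ (fun _ => g)) := by
  have u0 := hu.u0
  have um := hu.um
  have s1 : (m - 1 - u) * L = m * L - L - u * L := by ring
  have late : ∀ i, 1 ≤ i → L ≤ i * L := fun i hi => by
    have : 1 * L ≤ i * L := mul_le_mul_of_nonneg_right hi (by omega)
    omega
  have early : ∀ i, i ≤ m - 2 → i * L + L ≤ m * L - L := fun i hi => by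
    have : (i + 1) * L ≤ (m - 1) * L := mul_le_mul_of_nonneg_right (by omega) (by omega)
    have h1 : (i + 1) * L = i * L + L := by ring
    have h2 : (m - 1) * L = m * L - L := by ring
    omega
  have ninj : ∀ i, 0 ≤ i → i < m → τ i = m - 1 → i = u := fun i hi0 hi hh =>
    hτ.inj i u hi0 hi u0 um (by rw [hh, hu.ilast])
  have ninj0 : ∀ i, 0 ≤ i → i < m → τ i = 0 → i = m - 1 - u := fun i hi0 hi hh =>
    hτ.inj i (m - 1 - u) hi0 hi (by omega) (by omega) (by rw [hh, hu.ifirst])
  constructor
  · intro x hx0 hx hxv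
    obtain ⟨hi0, hi, ha0, ha, hxe⟩ := split_point hL hx0 hx
    have hA := hg.range _ ha0 ha
    have hi' : x / L = 0 := by
      by_contra hne
      have := late (x / L) (by omega)
      omega
    unfold eblow
    beta_reduce
    rw [hi', hu.first]
    constructor <;> omega
  · intro x hx0 hx hxv
    obtain ⟨hi0, hi, ha0, ha, hxe⟩ := split_point hL hx0 hx
    have hA := hg.range _ ha0 ha
    have hi' : x / L = m - 1 := by
      by_contra hne
      have := early (x / L) (by omega)
      omega
    unfold eblow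
    beta_reduce
    rw [hi', hu.last]
    constructor <;> omega
  · intro x hx0 hx hxv
    obtain ⟨hi0, hi, ha0, ha, hxe⟩ := split_point hL hx0 hx
    have hA := hg.range _ ha0 ha
    have hp := hτ.range _ hi0 hi
    unfold eblow at hxv
    beta_reduce at hxv
    have hi' : τ (x / L) = 0 := by
      by_contra hne
      have := late (τ (x / L)) (by omega)
      omega
    have := ninj0 _ hi0 hi hi'
    rw [this] at hxe
    constructor <;> omega
  · intro x hx0 hx hxv
    obtain ⟨hi0, hi, ha0, ha, hxe⟩ := split_point hL hx0 hx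
    have hA := hg.range _ ha0 ha
    have hp := hτ.range _ hi0 hi
    unfold eblow at hxv
    beta_reduce at hxv
    have hi' : τ (x / L) = m - 1 := by
      by_contra hne
      have := early (τ (x / L)) (by omega)
      omega
    have := ninj _ hi0 hi hi'
    rw [this] at hxe
    constructor <;> omega

/-- Corner conditions are inherited by composition of templates. -/
theorem eblow_corner {m L u v : ℤ} {τ g : ℤ → ℤ} (hL : 0 < L) (hu : Corner m u τ)
    (hv : Corner L v g) : Corner (m * L) (u * L + v) (eblow L τ (fun _ => g)) := by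
  have u0 := hu.u0
  have um := hu.um
  have v0 := hv.u0
  have vL := hv.um
  have h0 : 0 * L ≤ u * L := mul_le_mul_of_nonneg_right u0 hL.le
  have h1 : (u + 1) * L ≤ m * L := mul_le_mul_of_nonneg_right (by omega) hL.le
  have h2 : (u + 1) * L = u * L + L := by ring
  have dm : ∀ i a : ℤ, 0 ≤ a → a < L → (i * L + a) / L = i ∧ (i * L + a) % L = a := by
    intro i a ha0 ha
    constructor
    · rw [add_comm, Int.add_mul_ediv_right _ _ hL.ne', Int.ediv_eq_zero_of_lt ha0 ha, zero_add]
    · rw [add_comm, Int.add_mul_emod_self_right, Int.emod_eq_of_lt ha0 ha]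
  have s1 : m * L - 1 = (m - 1) * L + (L - 1) := by ring
  have s2 : m * L - 1 - (u * L + v) = (m - 1 - u) * L + (L - 1 - v) := by ring
  refine ⟨by omega, by omega, ?_, ?_, ?_, ?_⟩
  · have := dm 0 0 le_rfl hL
    simp only [zero_mul, zero_add] at this
    unfold eblow
    beta_reduce
    rw [this.1, this.2, hu.first, hv.first]
  · obtain ⟨e1, e2⟩ := dm (m - 1) (L - 1) (by omega) (by omega)
    unfold eblow
    beta_reduce
    rw [s2, s1, e1, e2, hu.last, hv.last]
  · obtain ⟨e1, e2⟩ := dm (m - 1 - u) (L - 1 - v) (by omega) (by omega)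
    unfold eblow
    beta_reduce
    rw [s2, e1, e2, hu.ifirst, hv.ifirst]
    ring
  · obtain ⟨e1, e2⟩ := dm u v (by omega) (by omega)
    unfold eblow
    beta_reduce
    rw [s1, e1, e2, hu.ilast, hv.ilast]

end Pool.Agent.Lib.MP_147277_co
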