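import Pool.Agent.Lib.MP_147277_co.Data

set_option autoImplicit false

namespace Pool.Agent.Lib.MP_147277_co

theorem good4 : Good 0 (4 : ℕ) (ext (look 8 T4)) :=
  good_of_chkI (by decide +kernel) (by decide +kernel)

theorem good13 : Good 0 (13 : ℕ) (ext (look 8 T13)) :=
  good_of_chkI (by decide +kernel) (by decide +kernel)

theorem good43 : Good 0 (43 : ℕ) (ext (look 8 T43)) :=
  good_of_chkI (by decide +kernel) (by decide +kernel)

theorem good53 : Good 0 (53 : ℕ) (ext (look 8 T53)) :=
  good_of_chkI (by decide +kernel) (by decide +kernel)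

/-- The inner permutation of block `i` of the cyclic template. -/
def sig (i a : ℕ) : ℕ := look 4 S101 (16 * i + a)

theorem sig_chk : allB 101 (fun i => chkPerm 16 (sig i) && chkI 16 (sig i)) = true := by
  decide +kernel

theorem good_sig (i : ℕ) (hi : i < 101) : Good 0 (16 : ℕ) (ext (sig i)) := by
  have h := allB_spec sig_chk i hi
  rw [Bool.and_eq_true] at h
  exact good_of_chkI h.1 h.2

theorem perm101 : chkPerm 101 (look 8 T101) = true := by decide +kernel

theorem chk101 : chkT 101 16 (look 8 T101) sig = true := by decide +kernel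

/-- The explicit cyclic template on `1616` points. -/
theorem good1616 : Good 1 (((101 : ℕ) : ℤ) * ((16 : ℕ) : ℤ))
    (eblow (16 : ℕ) (ext (look 8 T101)) (ext2 sig)) :=
  good_of_chkT (by norm_num) (by norm_num) perm101 chk101 good_sig

end Pool.Agent.Lib.MP_147277_co
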