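import Pool.Agent.Lib.MP_147277_co.Cofinite

set_option autoImplicit false

namespace Pool.Agent.Lib.MP_147277_co

/-- If the least absolute residue of `v` has absolute value at most one, then `v` is near a
multiple of `n`. -/
theorem near_of_valMinAbs {n : ℕ} (v : ℤ) (h : |((v : ℤ) : ZMod n).valMinAbs| ≤ 1) :
    ∃ t : ℤ, Near (v - t * n) := by
  rw [abs_le] at h
  have h1 : (((((v : ℤ) : ZMod n).valMinAbs : ℤ)) : ZMod n) = ((v : ℤ) : ZMod n) :=
    ZMod.coe_valMinAbs _
  rw [ZMod.intCast_eq_intCast_iff_dvd_sub] at h1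
  obtain ⟨t, ht⟩ := h1
  refine ⟨t, ?_⟩
  have h2 : v - t * n = ((v : ℤ) : ZMod n).valMinAbs := by
    rw [mul_comm]; omega
  rw [h2]
  exact h

theorem factor_small {n v t : ℤ} (hn : 0 < n) (h1 : -(2 * n - 2) ≤ v) (h2 : v ≤ 2 * n - 2)
    (h : Near (v - t * n)) : -1 ≤ t ∧ t ≤ 1 := by
  obtain ⟨h3, h4⟩ := h
  constructor
  · by_contra hq
    have : t * n ≤ -2 * n := mul_le_mul_of_nonneg_right (by omega) hn.le
    omega
  · by_contra hq
    have : 2 * n ≤ t * n := mul_le_mul_of_nonneg_right (by omega) hn.le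
    omega

/-- From a good function on `[0,n)` to a good permutation of `ZMod n`. -/
theorem exists_perm {n : ℕ} (hn : 0 < n) {f : ℤ → ℤ} (hf : Good 1 n f) :
    ∃ π : Equiv.Perm (ZMod n), ∀ a b c : ZMod n, ¬ (a = b ∧ b = c) →
      |(a + c - 2 * b).valMinAbs| ≤ 1 → 2 ≤ |(π a + π c - 2 * π b).valMinAbs| := by
  have : NeZero n := ⟨hn.ne'⟩
  have hval : ∀ a : ZMod n, (0 : ℤ) ≤ a.val ∧ (a.val : ℤ) < n := fun a =>
    ⟨by omega, by exact_mod_cast ZMod.val_lt a⟩
  have hinj : Function.Injective (fun a : ZMod n => ((f a.val : ℤ) : ZMod n)) := by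
    intro a b hab
    have h1 := hf.range a.val (hval a).1 (hval a).2
    have h2 := hf.range b.val (hval b).1 (hval b).2
    simp only at hab
    rw [ZMod.intCast_eq_intCast_iff] at hab
    have h3 := hab.eq
    rw [Int.emod_eq_of_lt h1.1 h1.2, Int.emod_eq_of_lt h2.1 h2.2] at h3
    have h4 := hf.inj _ _ (hval a).1 (hval a).2 (hval b).1 (hval b).2 h3
    exact ZMod.val_injective n (by exact_mod_cast h4)
  refine ⟨Equiv.ofBijective _ (Finite.injective_iff_bijective.1 hinj), ?_⟩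
  intro a b c hne h
  simp only [Equiv.ofBijective_apply]
  by_contra hcon
  have hcon' : |(((f a.val : ℤ) : ZMod n) + ((f c.val : ℤ) : ZMod n) -
      2 * ((f b.val : ℤ) : ZMod n)).valMinAbs| ≤ 1 := by omega
  have e1 : a + c - 2 * b = (((a.val : ℤ) + c.val - 2 * b.val : ℤ) : ZMod n) := by
    push_cast
    rw [ZMod.natCast_zmod_val, ZMod.natCast_zmod_val, ZMod.natCast_zmod_val]
  have e2 : (((f a.val : ℤ) : ZMod n) + ((f c.val : ℤ) : ZMod n) -
      2 * ((f b.val : ℤ) : ZMod n)) = ((f a.val + f c.val - 2 * f b.val : ℤ) : ZMod n) := by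
    push_cast; rfl
  rw [e1] at h
  rw [e2] at hcon'
  obtain ⟨t, ht⟩ := near_of_valMinAbs _ h
  obtain ⟨t', ht'⟩ := near_of_valMinAbs _ hcon'
  have ra := hf.range _ (hval a).1 (hval a).2
  have rb := hf.range _ (hval b).1 (hval b).2
  have rc := hf.range _ (hval c).1 (hval c).2
  have va := hval a
  have vb := hval b
  have vc := hval c
  have s1 := factor_small (by omega) (by omega) (by omega) ht
  have s2 := factor_small (by omega) (by omega) (by omega) ht'
  have := hf.good _ _ _ t t' va.1 va.2 vb.1 vb.2 vc.1 vc.2 s1.1 s1.2 s2.1 s2.2 ht ht'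
  apply hne
  exact ⟨ZMod.val_injective n (by exact_mod_cast this.1),
    ZMod.val_injective n (by exact_mod_cast this.2)⟩

end Pool.Agent.Lib.MP_147277_co
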